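import Pool.Agent.Helper65_RTF.Csd

/-!
CSI: the series with vanishing coset sums form an ideal in the series that are finite on cosets.
-/

namespace Pool.Agent.RTF.H94

open Pool.Agent.CD Pool.Agent.RTF Pool.Agent.RTF.H65

/-- CSI -/
theorem csi (hN : NeuStmt) : CsiStmt := by
  intro G _ F B hBn hB u v hu hv hz g
  have key : ∀ w : F.U, CZ F B w → ∀ c : G ⧸ B, csq F B w c = 0 := by
    intro w hw c
    obtain ⟨x, rfl⟩ := QuotientGroup.mk_surjective c
    rw [← cs_eq]
    exact hw x
  rw [cs_eq, csq_mul hN F B hB u v hu hv]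
  refine Finset.sum_eq_zero fun c _ => ?_
  rcases hz with h | h
  · rw [key u h, zero_mul]
  · rw [key v h, mul_zero]

end Pool.Agent.RTF.H94
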